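import Pool.Agent.H306R2.RZ.Defs2

set_option autoImplicit false

/-! Task C7 of project RZ (second wave). -/

namespace Pool.Agent.H739R4.RZ2

open Finset Filter Topology MeasureTheory Pool.Agent.H306R2.RZ

noncomputable section

private theorem Ex_eq (L β y c v : ℝ) (hv : 0 < v) :
    Ex c (TV L β v - y) =
      Real.exp (c * (β - y)) * (8 : ℝ) ^ (c / (2 * L)) * v ^ (c / (2 * L)) := by
  unfold Ex TV
  rw [Real.rpow_def_of_pos (by norm_num : (0 : ℝ) < 8), Real.rpow_def_of_pos hv,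
    ← Real.exp_add, ← Real.exp_add, Real.log_mul (by norm_num) hv.ne']
  congr 1
  ring

private theorem int_pow (a : ℝ) (ha : -1 < a) :
    IntegrableOn (fun v : ℝ => v ^ a * Real.exp (-(Real.pi * v))) (Set.Ioi 0) := by
  have h := integrableOn_rpow_mul_exp_neg_mul_rpow (p := 1) (s := a) (b := Real.pi) ha one_pos
    Real.pi_pos
  refine h.congr_fun (fun v _ => ?_) measurableSet_Ioi
  simp only [Real.rpow_one, neg_mul]

private theorem int_Ex (L β y c : ℝ) (hL : 0 < L) (hc : -(L / 2) < c) :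
    IntegrableOn (fun v : ℝ => Real.exp (-(Real.pi * v)) * v ^ (-(3 / 4) : ℝ) *
      Ex c (TV L β v - y)) (Set.Ioi 0) := by
  have ha : -1 < -(3 / 4) + c / (2 * L) := by
    have : -(1 / 4) < c / (2 * L) := by
      rw [lt_div_iff₀ (by positivity)]
      linarith
    linarith
  have h := (int_pow _ ha).const_mul (Real.exp (c * (β - y)) * (8 : ℝ) ^ (c / (2 * L)))
  refine IntegrableOn.congr_fun h (fun v hv => ?_) measurableSet_Ioi
  have hv0 : (0 : ℝ) < v := hv
  rw [Ex_eq L β y c v hv0, Real.rpow_add hv0]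
  ring

private theorem abs_bound (ε w x z : ℝ) (hε : 0 < ε) (hz : |z - x| ≤ ε) :
    |w * Real.exp (z * w)| ≤
      (1 / ε) * (Real.exp ((x + 2 * ε) * w) + Real.exp ((x - 2 * ε) * w)) := by
  have h1 : |w| ≤ (1 / ε) * Real.exp (ε * |w|) := by
    have := Real.add_one_le_exp (ε * |w|)
    rw [one_div, inv_mul_eq_div, le_div_iff₀ hε]
    linarith
  have h2 : Real.exp (z * w) ≤ Real.exp (x * w + ε * |w|) := by
    apply Real.exp_le_exp.2
    have : (z - x) * w ≤ ε * |w| := by
      calc (z - x) * w ≤ |(z - x) * w| := le_abs_self _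
        _ = |z - x| * |w| := abs_mul _ _
        _ ≤ ε * |w| := mul_le_mul_of_nonneg_right hz (abs_nonneg _)
    linarith
  have h3 : Real.exp (ε * |w|) * Real.exp (x * w + ε * |w|) ≤
      Real.exp ((x + 2 * ε) * w) + Real.exp ((x - 2 * ε) * w) := by
    rw [← Real.exp_add]
    rcases abs_cases w with ⟨hw, _⟩ | ⟨hw, _⟩
    · rw [hw, show ε * w + (x * w + ε * w) = (x + 2 * ε) * w by ring]
      linarith [Real.exp_pos ((x - 2 * ε) * w)]
    · rw [hw, show ε * -w + (x * w + ε * -w) = (x - 2 * ε) * w by ring]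
      linarith [Real.exp_pos ((x + 2 * ε) * w)]
  rw [abs_mul, abs_of_pos (Real.exp_pos _)]
  calc |w| * Real.exp (z * w) ≤
        ((1 / ε) * Real.exp (ε * |w|)) * Real.exp (x * w + ε * |w|) :=
        mul_le_mul h1 h2 (Real.exp_pos _).le (by positivity)
    _ = (1 / ε) * (Real.exp (ε * |w|) * Real.exp (x * w + ε * |w|)) := by ring
    _ ≤ _ := mul_le_mul_of_nonneg_left h3 (by positivity)

private theorem meas_TV (L β : ℝ) : Measurable (TV L β) := by
  unfold TV
  fun_prop

private theorem deriv_KW (L β y x : ℝ) (hL : 0 < L) (hx : 0 ≤ x) :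
    HasDerivAt (fun z => KW L β (Ex z) y) (KW L β (Ex1 x) y) x := by
  unfold KW
  apply HasDerivAt.div_const
  set ε : ℝ := L / 8 with hε
  have hε0 : 0 < ε := by positivity
  have hE : ∀ c τ : ℝ, Ex c τ = Real.exp (c * (τ - 1 / 2)) := by
    intro c τ
    unfold Ex
    congr 1
    ring
  have hE1 : ∀ c τ : ℝ, Ex1 c τ = (τ - 1 / 2) * Real.exp (c * (τ - 1 / 2)) := by
    intro c τ
    unfold Ex1
    congr 2
    ring
  have hmT := meas_TV L β
  have hmφ : Measurable (fun v : ℝ => Real.exp (-(Real.pi * v)) * v ^ (-(3 / 4) : ℝ)) := by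
    fun_prop
  refine (hasDerivAt_integral_of_dominated_loc_of_deriv_le
    (F := fun z v => Real.exp (-(Real.pi * v)) * v ^ (-(3 / 4) : ℝ) * Ex z (TV L β v - y))
    (F' := fun z v => Real.exp (-(Real.pi * v)) * v ^ (-(3 / 4) : ℝ) * Ex1 z (TV L β v - y))
    (bound := fun v => (1 / ε) * (Real.exp (-(Real.pi * v)) * v ^ (-(3 / 4) : ℝ) *
        Ex (x + 2 * ε) (TV L β v - y) + Real.exp (-(Real.pi * v)) * v ^ (-(3 / 4) : ℝ) *
        Ex (x - 2 * ε) (TV L β v - y)))
    (s := Metric.ball x ε) (Metric.ball_mem_nhds x hε0) ?_ ?_ ?_ ?_ ?_ ?_).2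
  · refine Filter.Eventually.of_forall fun z => ?_
    simp only [hE]
    exact (hmφ.mul (by fun_prop)).aestronglyMeasurable
  · exact int_Ex L β y x hL (by linarith)
  · simp only [hE1]
    exact (hmφ.mul (by fun_prop)).aestronglyMeasurable
  · rw [ae_restrict_iff' measurableSet_Ioi]
    refine Filter.Eventually.of_forall fun v hv z hz => ?_
    have hv0 : (0 : ℝ) < v := hv
    have hφ : 0 < Real.exp (-(Real.pi * v)) * v ^ (-(3 / 4) : ℝ) :=
      mul_pos (Real.exp_pos _) (Real.rpow_pos_of_pos hv0 _)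
    rw [Metric.mem_ball, Real.dist_eq] at hz
    have := abs_bound ε (TV L β v - y - 1 / 2) x z hε0 hz.le
    rw [Real.norm_eq_abs, abs_mul, abs_of_pos hφ, hE1, hE, hE]
    calc Real.exp (-(Real.pi * v)) * v ^ (-(3 / 4) : ℝ) *
          |(TV L β v - y - 1 / 2) * Real.exp (z * (TV L β v - y - 1 / 2))|
        ≤ Real.exp (-(Real.pi * v)) * v ^ (-(3 / 4) : ℝ) *
          ((1 / ε) * (Real.exp ((x + 2 * ε) * (TV L β v - y - 1 / 2)) +
            Real.exp ((x - 2 * ε) * (TV L β v - y - 1 / 2)))) :=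
          mul_le_mul_of_nonneg_left this hφ.le
      _ = _ := by ring
  · exact ((int_Ex L β y _ hL (by linarith)).add (int_Ex L β y _ hL (by linarith))).const_mul _
  · refine Filter.Eventually.of_forall fun v z _ => ?_
    simp only [hE, hE1]
    apply HasDerivAt.const_mul
    have h1 : HasDerivAt (fun z : ℝ => z * (TV L β v - y - 1 / 2)) (TV L β v - y - 1 / 2) z := by
      simpa using (hasDerivAt_id z).mul_const (TV L β v - y - 1 / 2)
    have h2 := h1.exp
    rw [mul_comm] at h2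
    exact h2

theorem C7 (d : ℕ) (hd : d ≠ 0) (L : ℝ) (hL : 0 < L) (x : ℝ) (hx : 0 ≤ x) (y : ℝ) :
    KW L (be L d) (Ex x) y = Kd L d x * Real.exp (-(x * y)) ∧
    HasDerivAt (fun z => KW L (be L d) (Ex z) y) (KW L (be L d) (Ex1 x) y) x := by
  refine ⟨?_, deriv_KW L (be L d) y x hL hx⟩
  have hd0 : (0 : ℝ) < d := by
    have : 0 < d := Nat.pos_of_ne_zero hd
    exact_mod_cast this
  have ha : 0 < 1 / 4 + x / (2 * L) := by positivity
  have h1 : ∫ v in Set.Ioi (0 : ℝ), Real.exp (-(Real.pi * v)) * v ^ (-(3 / 4) : ℝ) *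
      Ex x (TV L (be L d) v - y) =
      Real.exp (x * (be L d - y)) * (8 : ℝ) ^ (x / (2 * L)) *
        ∫ v in Set.Ioi (0 : ℝ), v ^ (1 / 4 + x / (2 * L) - 1) * Real.exp (-(Real.pi * v)) := by
    rw [← integral_const_mul]
    refine setIntegral_congr_fun measurableSet_Ioi fun v hv => ?_
    have hv0 : (0 : ℝ) < v := hv
    rw [Ex_eq L _ y x v hv0, show (1 : ℝ) / 4 + x / (2 * L) - 1 = -(3 / 4) + x / (2 * L) by ring,
      Real.rpow_add hv0]
    ring
  unfold KW Kd
  rw [h1, Real.integral_rpow_mul_exp_neg_mul_Ioi ha Real.pi_pos]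
  unfold gm
  have h2 : Real.exp (x * (be L d - y)) =
      Real.exp (-(x / 2)) * (d : ℝ) ^ (x / (2 * L)) * Real.exp (-(x * y)) := by
    rw [Real.rpow_def_of_pos hd0, ← Real.exp_add, ← Real.exp_add]
    congr 1
    unfold be
    field_simp
    ring
  have h3 : (1 / 2 + x / L) / 2 = 1 / 4 + x / (2 * L) := by
    field_simp
    ring
  rw [h2, Real.mul_rpow (by norm_num) hd0.le, h3, one_div, Real.inv_rpow Real.pi_pos.le,
    Real.rpow_neg Real.pi_pos.le]
  ring

end

end Pool.Agent.H739R4.RZ2
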